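import Mathlib

/-!
# Free pro-p groups and one-relator quotients: definitions used in the statements
-/

namespace Pool.Agent.Helper34.FHS

/-- The compact totally disconnected group `F` is the free pro-`p` group with basis `ι : X → F`
(a set converging to `1` if `X` is infinite): `F` is pro-`p`, the set `ι X` converges to `1` and
generates `F` topologically, and every map `φ` from `X` to a finite `p`-group `P` (with `φ x = 1`
for almost all `x`) extends to a continuous homomorphism `F → P`. -/
structure IsFreeProP (p : ℕ) {X F : Type*} [Group F] [TopologicalSpace F] (ι : X → F) : Prop where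
  proP : ∀ U : Subgroup F, U.Normal → IsOpen (U : Set F) → ∃ k : ℕ, U.index = p ^ k
  converges : ∀ U : Subgroup F, U.Normal → IsOpen (U : Set F) → {x | ι x ∉ U}.Finite
  dense : Dense (Subgroup.closure (Set.range ι) : Set F)
  lift : ∀ (P : Type) [Group P] [Finite P], (∃ k : ℕ, Nat.card P = p ^ k) →
    ∀ φ : X → P, {x | φ x ≠ 1}.Finite →
      ∃ θ : F →* P, IsOpen (θ.ker : Set F) ∧ ∀ x, θ (ι x) = φ x

section

variable {X F : Type*} [Group F] [TopologicalSpace F] [IsTopologicalGroup F]

/-- `F(Y)`: the closed subgroup generated by the part `Y` of the basis. -/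
def sub (ι : X → F) (Y : Set X) : Subgroup F := (Subgroup.closure (ι '' Y)).topologicalClosure

/-- `r^F`: the closed normal subgroup generated by `r`. -/
def ncl (r : F) : Subgroup F := (Subgroup.normalClosure {r}).topologicalClosure

/-- `X ∖ {x}` stays free modulo `R = r^F`: the natural map `F(X ∖ {x}) → F/R` is injective. -/
def StaysFree (ι : X → F) (r : F) (x : X) : Prop := sub ι {y | y ≠ x} ⊓ ncl r = ⊥

/-- Some element associated to `r` depends on `Y`. -/
def DependsUpTo (ι : X → F) (r : F) (Y : Set X) : Prop := ∃ s ∈ sub ι Y, ncl s = ncl r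

end

/-- A continuous upper unitriangular matrix representation over `L` -/
structure IsUnip {F : Type*} [Group F] [TopologicalSpace F] {L : Type*} [CommRing L]
    [TopologicalSpace L] {n : ℕ} (θ : F →* Matrix (Fin n) (Fin n) L) : Prop where
  cont : Continuous θ
  lower : ∀ g i j, j < i → θ g i j = 0
  diag : ∀ g i, θ g i i = 1

end Pool.Agent.Helper34.FHS
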