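import Mathlib

/-!
# Filtered function algebras on a monoid (for the domain theorem)
-/

namespace Pool.Agent.Helper34.FHS.Dom

variable {G : Type*} [Monoid G] {K : Type*} [Field K]

/-- A multiplicative and comultiplicative filtration `V 0 ≤ V 1 ≤ ...` of functions on a monoid,
`V 0` the constants. -/
structure IsFilt (V : ℕ → Submodule K (G → K)) : Prop where
  mono : Monotone V
  const : ∀ β ∈ V 0, ∃ c : K, β = fun _ => c
  one : (fun _ => 1 : G → K) ∈ V 0
  mul : ∀ i j β γ, β ∈ V i → γ ∈ V j → (fun g => β g * γ g) ∈ V (i + j)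
  comul : ∀ n β, β ∈ V n → (fun x : G × G => β (x.1 * x.2)) ∈
    Submodule.span K {Ψ : G × G → K | ∃ i j, i + j ≤ n ∧ ∃ p ∈ V i, ∃ q ∈ V j,
      Ψ = fun x => p x.1 * q x.2}

/-- `W V j n`: span of the products `γ₁ ⋯ γ_j δ` with `γ_i ∈ V (d_i)` vanishing at `1`, `δ ∈ V e`,
`∑ d_i + e ≤ n`. -/
def W (V : ℕ → Submodule K (G → K)) : ℕ → ℕ → Submodule K (G → K)
  | 0, n => V n
  | j + 1, n => Submodule.span K {β | ∃ d e, d + e ≤ n ∧ ∃ γ ∈ V d, γ 1 = 0 ∧ ∃ δ ∈ W V j e,
      β = fun g => γ g * δ g}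

/-- `P V N D`: span of the functions `p(g) q(h)` with `p ∈ W j d`, `q ∈ W j' d'`, `j + j' ≥ N`,
`d + d' ≤ D`. -/
def P (V : ℕ → Submodule K (G → K)) (N D : ℕ) : Submodule K (G × G → K) :=
  Submodule.span K {Ψ | ∃ j j' d d', N ≤ j + j' ∧ d + d' ≤ D ∧ ∃ p ∈ W V j d, ∃ q ∈ W V j' d',
    Ψ = fun x => p x.1 * q x.2}

/-- the functional `a ⊗ b` on functions of two variables -/
def tens (a b : (G → K) →ₗ[K] K) : (G × G → K) →ₗ[K] K where
  toFun Ψ := a fun g => b fun h => Ψ (g, h)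
  map_add' Ψ Φ := by
    rw [← map_add]
    congr 1
    funext g
    show b ((fun h => Ψ (g, h)) + fun h => Φ (g, h)) = _
    rw [map_add]
    rfl
  map_smul' c Ψ := by
    rw [RingHom.id_apply, ← map_smul]
    congr 1
    funext g
    show b (c • fun h => Ψ (g, h)) = _
    rw [map_smul]
    rfl

theorem tens_apply (a b : (G → K) →ₗ[K] K) (Ψ : G × G → K) :
    tens a b Ψ = a fun g => b fun h => Ψ (g, h) := rfl

theorem tens_mul (a b : (G → K) →ₗ[K] K) (p q : G → K) :
    tens a b (fun x => p x.1 * q x.2) = a p * b q := by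
  rw [tens_apply]
  have h1 : (fun g => b fun h => p g * q h) = b q • p := by
    funext g
    show b (p g • q) = _
    rw [map_smul, smul_eq_mul, Pi.smul_apply, smul_eq_mul, mul_comm]
  show a (fun g => b fun h => p g * q h) = _
  rw [h1, map_smul, smul_eq_mul, mul_comm]

end Pool.Agent.Helper34.FHS.Dom
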