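import Mathlib

/-!
# Noncommutative formal power series

`NS X K` is the ring of noncommutative formal power series over `K` in the letters `X`.
A word is a list whose HEAD is the LAST letter of the word, so that the right derivative
`dl z a`, defined by `a = a [] + ∑ z, dl z a * z`, is `w ↦ a (z :: w)`.
-/

namespace Pool.Agent.Helper34.FHS

universe u v

/-- Noncommutative formal power series (functions on words; head of the list = last letter). -/
@[ext] structure NS (X : Type u) (K : Type v) where
  /-- the coefficient of a word -/
  coeff : List X → K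

namespace NS

section basic

variable {X : Type u} {K : Type v}

instance : CoeFun (NS X K) (fun _ => List X → K) := ⟨NS.coeff⟩

theorem ext' {a b : NS X K} (h : ∀ w, a w = b w) : a = b := NS.ext (funext h)

theorem coeff_injective : Function.Injective (NS.coeff : NS X K → List X → K) :=
  fun _ _ h => NS.ext h

@[simp] theorem mk_apply (f : List X → K) (w : List X) : (NS.mk f : NS X K) w = f w := rfl

end basic

variable {X : Type u} {K : Type v} [CommRing K]

instance : Zero (NS X K) := ⟨⟨fun _ => 0⟩⟩
instance : Add (NS X K) := ⟨fun a b => ⟨fun w => a w + b w⟩⟩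
instance : Neg (NS X K) := ⟨fun a => ⟨fun w => -a w⟩⟩
instance : Sub (NS X K) := ⟨fun a b => ⟨fun w => a w - b w⟩⟩
instance instSMulNS : SMul K (NS X K) := ⟨fun c a => ⟨fun w => c * a w⟩⟩
instance : SMul ℕ (NS X K) := ⟨fun c a => ⟨fun w => c • a w⟩⟩
instance : SMul ℤ (NS X K) := ⟨fun c a => ⟨fun w => c • a w⟩⟩

@[simp] theorem add_apply (a b : NS X K) (w : List X) : (a + b) w = a w + b w := rfl
@[simp] theorem sub_apply (a b : NS X K) (w : List X) : (a - b) w = a w - b w := rfl
@[simp] theorem neg_apply (a : NS X K) (w : List X) : (-a) w = -a w := rfl
@[simp] theorem zero_apply (w : List X) : (0 : NS X K) w = 0 := rfl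
@[simp] theorem smul_apply (c : K) (a : NS X K) (w : List X) : (c • a) w = c * a w := rfl

instance : AddCommGroup (NS X K) :=
  coeff_injective.addCommGroup NS.coeff rfl (fun _ _ => rfl) (fun _ => rfl) (fun _ _ => rfl)
    (fun _ _ => rfl) (fun _ _ => rfl)

/-- `coeff` as an additive homomorphism. -/
def coeffHom : NS X K →+ (List X → K) := ⟨⟨NS.coeff, rfl⟩, fun _ _ => rfl⟩

instance : Module K (NS X K) :=
  coeff_injective.module K coeffHom (fun _ _ => rfl)

/-- The right derivative: `a = a [] + ∑ z, dl z a * z`. -/
def dl (z : X) (a : NS X K) : NS X K := ⟨fun w => a (z :: w)⟩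

@[simp] theorem dl_apply (z : X) (a : NS X K) (w : List X) : dl z a w = a (z :: w) := rfl
@[simp] theorem dl_add (z : X) (a b : NS X K) : dl z (a + b) = dl z a + dl z b := rfl
@[simp] theorem dl_sub (z : X) (a b : NS X K) : dl z (a - b) = dl z a - dl z b := rfl
@[simp] theorem dl_neg (z : X) (a : NS X K) : dl z (-a) = -dl z a := rfl
@[simp] theorem dl_zero (z : X) : dl z (0 : NS X K) = 0 := rfl
@[simp] theorem dl_smul (z : X) (c : K) (a : NS X K) : dl z (c • a) = c • dl z a := rfl

/-- Auxiliary recursion for the product. -/
def mulF (a : NS X K) : List X → NS X K → K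
  | [], b => a [] * b []
  | z :: w, b => a (z :: w) * b [] + mulF a w (dl z b)

instance : Mul (NS X K) := ⟨fun a b => ⟨fun w => mulF a w b⟩⟩

theorem mul_nil (a b : NS X K) : (a * b) [] = a [] * b [] := rfl

theorem mul_cons (a b : NS X K) (z : X) (w : List X) :
    (a * b) (z :: w) = a (z :: w) * b [] + (a * dl z b) w := rfl

instance : One (NS X K) := ⟨⟨fun w => match w with
  | [] => 1
  | _ :: _ => 0⟩⟩

@[simp] theorem one_nil : (1 : NS X K) [] = 1 := rfl
@[simp] theorem one_cons (z : X) (w : List X) : (1 : NS X K) (z :: w) = 0 := rfl
@[simp] theorem dl_one (z : X) : dl z (1 : NS X K) = 0 := rfl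

theorem mul_add' (a b c : NS X K) : a * (b + c) = a * b + a * c := by
  apply ext'; intro w
  induction w generalizing b c with
  | nil => simp [mul_nil, mul_add]
  | cons z w ih =>
    rw [add_apply, mul_cons, mul_cons, mul_cons, dl_add, ih, add_apply, add_apply]
    ring

theorem add_mul' (a b c : NS X K) : (a + b) * c = a * c + b * c := by
  apply ext'; intro w
  induction w generalizing c with
  | nil => simp [mul_nil, add_mul]
  | cons z w ih =>
    rw [add_apply, mul_cons, mul_cons, mul_cons, ih, add_apply, add_apply]
    ring

theorem mul_smul' (c : K) (a b : NS X K) : a * (c • b) = c • (a * b) := by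
  apply ext'; intro w
  induction w generalizing b with
  | nil => simp only [mul_nil, smul_apply]; ring
  | cons z w ih =>
    rw [smul_apply, mul_cons, mul_cons, dl_smul, ih, smul_apply, smul_apply]
    ring

theorem smul_mul' (c : K) (a b : NS X K) : (c • a) * b = c • (a * b) := by
  apply ext'; intro w
  induction w generalizing b with
  | nil => simp only [mul_nil, smul_apply]; ring
  | cons z w ih =>
    rw [smul_apply, mul_cons, mul_cons, ih, smul_apply, smul_apply]
    ring

theorem dl_mul (z : X) (a b : NS X K) : dl z (a * b) = b [] • dl z a + a * dl z b := by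
  apply ext'; intro w
  rw [dl_apply, mul_cons, add_apply, smul_apply, dl_apply]
  ring

theorem mul_assoc' (a b c : NS X K) : a * b * c = a * (b * c) := by
  apply ext'; intro w
  induction w generalizing b c with
  | nil => simp only [mul_nil]; ring
  | cons z w ih =>
    rw [mul_cons, mul_cons, mul_cons, ih, dl_mul, mul_add', mul_smul', mul_nil, add_apply,
      smul_apply]
    ring

theorem zero_mul' (a : NS X K) : 0 * a = 0 := by
  have h := add_mul' (0 : NS X K) 0 a
  rw [add_zero] at h
  simpa using h

theorem mul_zero' (a : NS X K) : a * 0 = 0 := by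
  have h := mul_add' a (0 : NS X K) 0
  rw [add_zero] at h
  simpa using h

theorem one_mul' (a : NS X K) : 1 * a = a := by
  apply ext'; intro w
  induction w generalizing a with
  | nil => simp [mul_nil]
  | cons z w ih => rw [mul_cons, ih, one_cons, dl_apply, zero_mul, zero_add]

theorem mul_one' (a : NS X K) : a * 1 = a := by
  apply ext'; intro w
  cases w with
  | nil => simp [mul_nil]
  | cons z w => rw [mul_cons, dl_one, mul_zero', one_nil, mul_one, zero_apply, add_zero]

instance : Ring (NS X K) :=
  { (inferInstance : AddCommGroup (NS X K)), (inferInstance : Mul (NS X K)),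
    (inferInstance : One (NS X K)) with
    left_distrib := mul_add'
    right_distrib := add_mul'
    zero_mul := zero_mul'
    mul_zero := mul_zero'
    mul_assoc := mul_assoc'
    one_mul := one_mul'
    mul_one := mul_one' }

instance : Algebra K (NS X K) :=
  Algebra.ofModule (fun c a b => smul_mul' c a b) (fun c a b => mul_smul' c a b)

/-- The word `α` as a power series. -/
noncomputable def word (α : List X) : NS X K := by
  classical exact ⟨fun w => if w = α then 1 else 0⟩

/-- The letter `z` as a power series. -/
noncomputable def letter (z : X) : NS X K := word [z]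

theorem word_apply [DecidableEq (List X)] (α w : List X) :
    (word α : NS X K) w = if w = α then 1 else 0 := by
  unfold word; simp only []; congr

@[simp] theorem word_self (α : List X) : (word α : NS X K) α = 1 := by
  classical simp [word_apply]

theorem word_ne {α w : List X} (h : w ≠ α) : (word α : NS X K) w = 0 := by
  classical simp [word_apply, h]

@[simp] theorem word_nil : (word [] : NS X K) = 1 := by
  classical
  apply ext'; intro w; cases w <;> simp [word_apply]

theorem dl_word_cons_self (z : X) (α : List X) : dl z (word (z :: α) : NS X K) = word α := by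
  classical
  apply ext'; intro w; simp [word_apply]

theorem dl_word_cons_ne {z z' : X} (h : z ≠ z') (α : List X) :
    dl z (word (z' :: α) : NS X K) = 0 := by
  classical
  apply ext'; intro w; simp [word_apply, h]

@[simp] theorem letter_nil (z : X) : (letter z : NS X K) [] = 0 := word_ne (by simp)

@[simp] theorem dl_letter_self (z : X) : dl z (letter z : NS X K) = 1 := by
  rw [letter, dl_word_cons_self, word_nil]

theorem dl_letter_ne {z z' : X} (h : z ≠ z') : dl z (letter z' : NS X K) = 0 :=
  dl_word_cons_ne h _

/-- Right multiplication by a letter. -/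
@[simp] theorem mul_letter_nil (a : NS X K) (z : X) : (a * letter z : NS X K) [] = 0 := by
  simp [mul_nil]

@[simp] theorem dl_mul_letter_self (a : NS X K) (z : X) : dl z (a * letter z) = a := by
  rw [dl_mul, letter_nil, zero_smul, zero_add, dl_letter_self, mul_one]

theorem dl_mul_letter_ne (a : NS X K) {z z' : X} (h : z ≠ z') : dl z (a * letter z') = 0 := by
  rw [dl_mul, letter_nil, zero_smul, zero_add, dl_letter_ne h, mul_zero]

theorem word_cons (z : X) (α : List X) : (word (z :: α) : NS X K) = word α * letter z := by
  apply ext'; intro w
  cases w with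
  | nil => rw [word_ne (by simp), mul_letter_nil]
  | cons z' w =>
    by_cases h : z' = z
    · subst h
      rw [← dl_apply, ← dl_apply (a := word α * letter z'), dl_word_cons_self, dl_mul_letter_self]
    · rw [← dl_apply, ← dl_apply (a := word α * letter z), dl_word_cons_ne h, dl_mul_letter_ne _ h]

/-- `α` followed by `β` (as lists: `β ++ α`). -/
theorem word_append (β α : List X) : (word (β ++ α) : NS X K) = word α * word β := by
  induction β with
  | nil => simp
  | cons z β ih => rw [List.cons_append, word_cons, ih, word_cons, mul_assoc]

theorem dl_mul_eq_of_nil {f : NS X K} (v : NS X K) (hf : f [] = 0) (z : X) :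
    dl z (v * f) = v * dl z f := by
  rw [dl_mul, hf, zero_smul, zero_add]

theorem dl_mul_of_nil_one (z : X) (a b : NS X K) (hb : b [] = 1) :
    dl z (a * b) = dl z a + a * dl z b := by
  rw [dl_mul, hb, one_smul]

/-- Change of coefficients. -/
def map {L : Type*} [CommRing L] (φ : K →+* L) : NS X K →+* NS X L where
  toFun a := ⟨fun w => φ (a w)⟩
  map_one' := by
    apply ext'; intro w; cases w <;> simp
  map_zero' := by apply ext'; intro w; simp
  map_add' a b := by apply ext'; intro w; simp
  map_mul' a b := by
    apply ext'; intro w
    induction w generalizing b with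
    | nil => simp [mul_nil]
    | cons z w ih =>
      have := ih (dl z b)
      rw [mk_apply] at this
      rw [mk_apply, mul_cons, map_add, map_mul, this, mul_cons]
      rfl

@[simp] theorem map_apply {L : Type*} [CommRing L] (φ : K →+* L) (a : NS X K) (w : List X) :
    map φ a w = φ (a w) := rfl

theorem map_word {L : Type*} [CommRing L] (φ : K →+* L) (α : List X) :
    map φ (word α : NS X K) = word α := by
  classical
  apply ext'; intro w
  rw [map_apply, word_apply, word_apply]
  split_ifs <;> simp

theorem map_letter {L : Type*} [CommRing L] (φ : K →+* L) (z : X) :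
    map φ (letter z : NS X K) = letter z := map_word φ _

theorem map_dl {L : Type*} [CommRing L] (φ : K →+* L) (z : X) (a : NS X K) :
    map φ (dl z a) = dl z (map φ a) := rfl

/-- Restriction along a map of alphabets. -/
def res {X' : Type*} (φ : X' → X) : NS X K →+* NS X' K where
  toFun a := ⟨fun w => a (w.map φ)⟩
  map_one' := by
    apply ext'; intro w; cases w <;> simp
  map_zero' := by apply ext'; intro w; simp
  map_add' a b := by apply ext'; intro w; simp
  map_mul' a b := by
    apply ext'; intro w
    induction w generalizing b with
    | nil => simp [mul_nil]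
    | cons z w ih =>
      have := ih (dl (φ z) b)
      rw [mk_apply] at this
      rw [mk_apply, List.map_cons, mul_cons, this, mul_cons]
      rfl

@[simp] theorem res_apply {X' : Type*} (φ : X' → X) (a : NS X K) (w : List X') :
    res φ a w = a (w.map φ) := rfl

/-- Setting the letter `x` to zero (underlying function). -/
noncomputable def killF (x : X) (a : NS X K) : NS X K := by
  classical exact ⟨fun w => if x ∈ w then 0 else a w⟩

theorem killF_of_mem {x : X} {w : List X} (h : x ∈ w) (a : NS X K) : killF x a w = 0 := by
  classical
  show (if x ∈ w then 0 else a w) = 0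
  rw [if_pos h]

theorem killF_of_notMem {x : X} {w : List X} (h : x ∉ w) (a : NS X K) : killF x a w = a w := by
  classical
  show (if x ∈ w then 0 else a w) = a w
  rw [if_neg h]

theorem dl_killF_self (x : X) (a : NS X K) : dl x (killF x a) = 0 := by
  apply ext'; intro w
  rw [dl_apply, killF_of_mem (by simp), zero_apply]

theorem dl_killF_ne {x z : X} (h : x ≠ z) (a : NS X K) : dl z (killF x a) = killF x (dl z a) := by
  apply ext'; intro w
  rw [dl_apply]
  by_cases hw : x ∈ w
  · rw [killF_of_mem (by simp [hw]), killF_of_mem hw]
  · rw [killF_of_notMem (by simp [hw, h]), killF_of_notMem hw, dl_apply]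

theorem killF_mul (x : X) (a b : NS X K) : killF x (a * b) = killF x a * killF x b := by
  apply ext'; intro w
  induction w generalizing b with
  | nil =>
    rw [killF_of_notMem (by simp), mul_nil, mul_nil, killF_of_notMem (by simp),
      killF_of_notMem (by simp)]
  | cons z w ih =>
    rw [mul_cons, killF_of_notMem (List.not_mem_nil) b]
    by_cases hz : x = z
    · subst hz
      rw [killF_of_mem (by simp), killF_of_mem (by simp), dl_killF_self, mul_zero]
      simp
    · rw [dl_killF_ne hz, ← ih]
      by_cases hw : x ∈ w
      · rw [killF_of_mem (by simp [hw]), killF_of_mem (by simp [hw]), killF_of_mem hw]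
        simp
      · rw [killF_of_notMem (by simp [hw, hz]), killF_of_notMem (by simp [hw, hz]),
          killF_of_notMem hw, mul_cons]

/-- Setting the letter `x` to zero. -/
noncomputable def kill (x : X) : NS X K →+* NS X K where
  toFun := killF x
  map_one' := by
    apply ext'; intro w; cases w with
    | nil => rw [killF_of_notMem (by simp)]
    | cons z w =>
      by_cases hw : x ∈ z :: w
      · rw [killF_of_mem hw, one_cons]
      · rw [killF_of_notMem hw]
  map_zero' := by
    apply ext'; intro w
    by_cases hw : x ∈ w
    · rw [killF_of_mem hw, zero_apply]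
    · rw [killF_of_notMem hw]
  map_add' a b := by
    apply ext'; intro w
    by_cases hw : x ∈ w
    · rw [killF_of_mem hw, add_apply, killF_of_mem hw, killF_of_mem hw, add_zero]
    · rw [killF_of_notMem hw, add_apply, add_apply, killF_of_notMem hw, killF_of_notMem hw]
  map_mul' := killF_mul x

theorem kill_of_mem {x : X} {w : List X} (h : x ∈ w) (a : NS X K) : kill x a w = 0 :=
  killF_of_mem h a

theorem kill_of_notMem {x : X} {w : List X} (h : x ∉ w) (a : NS X K) : kill x a w = a w :=
  killF_of_notMem h a

theorem kill_letter_self (x : X) : kill x (letter x : NS X K) = 0 := by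
  apply ext'; intro w
  by_cases hw : x ∈ w
  · rw [kill_of_mem hw, zero_apply]
  · rw [kill_of_notMem hw, zero_apply]
    exact word_ne (by rintro rfl; simp at hw)

theorem kill_letter_ne {x z : X} (h : x ≠ z) : kill x (letter z : NS X K) = letter z := by
  apply ext'; intro w
  by_cases hw : x ∈ w
  · rw [kill_of_mem hw]
    exact (word_ne (by rintro rfl; simp [h] at hw)).symm
  · rw [kill_of_notMem hw]

end NS

end Pool.Agent.Helper34.FHS
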