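import Mathlib
import Pool.Agent.Helper34.FHS.Ser

/-!
# Polynomials (finite combinations of words) as the predual of noncommutative power series
-/

namespace Pool.Agent.Helper34.FHS

open Finsupp

universe u v

/-- finite linear combinations of words -/
abbrev CC (X : Type u) (K : Type v) [Zero K] := List X →₀ K

variable {X : Type u} {K : Type v} [CommRing K]

/-- the pairing of a power series with a finite combination of words -/
noncomputable def pr (a : NS X K) : CC X K →ₗ[K] K := Finsupp.linearCombination K a.coeff

@[simp] theorem pr_single (a : NS X K) (w : List X) (c : K) : pr a (single w c) = c * a w := by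
  simp [pr]

theorem pr_eq_sum (a : NS X K) (u : CC X K) : pr a u = u.sum fun w c => c * a w := by
  simp [pr, Finsupp.linearCombination_apply]

theorem pr_add (a b : NS X K) (u : CC X K) : pr (a + b) u = pr a u + pr b u := by
  induction u using Finsupp.induction_linear with
  | zero => simp
  | add u v hu hv => rw [map_add, map_add, map_add, hu, hv]; ring
  | single w c => simp [mul_add]

theorem pr_smul (c : K) (a : NS X K) (u : CC X K) : pr (c • a) u = c * pr a u := by
  induction u using Finsupp.induction_linear with
  | zero => simp
  | add u v hu hv => rw [map_add, map_add, hu, hv]; ring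
  | single w c => simp; ring

theorem pr_zero (u : CC X K) : pr (0 : NS X K) u = 0 := by
  have := pr_smul (0 : K) (0 : NS X K) u
  rwa [zero_smul, zero_mul] at this

theorem pr_neg (a : NS X K) (u : CC X K) : pr (-a) u = -pr a u := by
  rw [← neg_one_smul K, pr_smul]; ring

theorem pr_sub (a b : NS X K) (u : CC X K) : pr (a - b) u = pr a u - pr b u := by
  rw [sub_eq_add_neg, pr_add, pr_neg]; ring

/-- the pairing as a linear functional on power series -/
noncomputable def prl (u : CC X K) : NS X K →ₗ[K] K where
  toFun a := pr a u
  map_add' a b := pr_add a b u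
  map_smul' c a := by simp [pr_smul]

@[simp] theorem prl_apply (u : CC X K) (a : NS X K) : prl u a = pr a u := rfl

/-- a power series is determined by its values on finite combinations of words -/
theorem NS.eq_of_pr {a b : NS X K} (h : ∀ u, pr a u = pr b u) : a = b := by
  apply NS.ext'
  intro w
  simpa using h (single w 1)

/-- every linear functional on finite combinations of words is a power series -/
noncomputable def ofDual (l : CC X K →ₗ[K] K) : NS X K := ⟨fun w => l (single w 1)⟩

@[simp] theorem pr_ofDual (l : CC X K →ₗ[K] K) (u : CC X K) : pr (ofDual l) u = l u := by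
  induction u using Finsupp.induction_linear with
  | zero => simp
  | add u v hu hv => rw [map_add, map_add, hu, hv]
  | single w c =>
    rw [pr_single]
    show c * l (single w 1) = _
    rw [← smul_eq_mul, ← map_smul]
    simp

/-- `sfxW w b = ∑ b(β) γ` over `w = β ++ γ` -/
noncomputable def sfxW : List X → NS X K → CC X K
  | [], b => single [] (b [])
  | z :: w, b => single (z :: w) (b []) + sfxW w (NS.dl z b)

/-- contraction with `b` at the end of the words: `pr a (sfx b u) = pr (a * b) u` -/
noncomputable def sfx (b : NS X K) : CC X K →ₗ[K] CC X K :=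
  Finsupp.linearCombination K (fun w => sfxW w b)

theorem pr_sfxW (a b : NS X K) (w : List X) : pr a (sfxW w b) = (a * b) w := by
  induction w generalizing b with
  | nil => simp [sfxW, NS.mul_nil, mul_comm]
  | cons z w ih => rw [sfxW, map_add, ih, NS.mul_cons, pr_single]; ring

theorem pr_sfx (a b : NS X K) (u : CC X K) : pr a (sfx b u) = pr (a * b) u := by
  induction u using Finsupp.induction_linear with
  | zero => simp
  | add u v hu hv => rw [map_add, map_add, map_add, hu, hv]
  | single w c =>
    rw [sfx, Finsupp.linearCombination_single, map_smul, pr_sfxW, pr_single, smul_eq_mul]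

/-- adding the last letter `z` to all words -/
noncomputable def consL (z : X) : CC X K →ₗ[K] CC X K := Finsupp.lmapDomain K K (List.cons z)

@[simp] theorem consL_single (z : X) (w : List X) (c : K) :
    consL z (single w c) = single (z :: w) c := by
  simp [consL]

theorem pr_consL (a : NS X K) (z : X) (u : CC X K) : pr a (consL z u) = pr (NS.dl z a) u := by
  induction u using Finsupp.induction_linear with
  | zero => simp
  | add u v hu hv => rw [map_add, map_add, map_add, hu, hv]
  | single w c => simp

/-- `pfxW a w = ∑ a(γ) β` over `w = β ++ γ` -/
noncomputable def pfxW (a : NS X K) : List X → CC X K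
  | [] => single [] (a [])
  | z :: w => single [] (a (z :: w)) + consL z (pfxW a w)

/-- contraction with `a` at the beginning of the words: `pr b (pfx a u) = pr (a * b) u` -/
noncomputable def pfx (a : NS X K) : CC X K →ₗ[K] CC X K :=
  Finsupp.linearCombination K (fun w => pfxW a w)

theorem pr_pfxW (a b : NS X K) (w : List X) : pr b (pfxW a w) = (a * b) w := by
  induction w generalizing b with
  | nil => simp [pfxW, NS.mul_nil]
  | cons z w ih => rw [pfxW, map_add, pr_consL, ih, NS.mul_cons, pr_single]

theorem pr_pfx (a b : NS X K) (u : CC X K) : pr b (pfx a u) = pr (a * b) u := by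
  induction u using Finsupp.induction_linear with
  | zero => simp
  | add u v hu hv => rw [map_add, map_add, map_add, hu, hv]
  | single w c =>
    rw [pfx, Finsupp.linearCombination_single, map_smul, pr_pfxW, pr_single, smul_eq_mul]

/-- the coefficient of a word, as a pairing with a word -/
theorem pr_word (α : List X) (u : CC X K) : pr (NS.word α : NS X K) u = u α := by
  classical
  induction u using Finsupp.induction_linear with
  | zero => simp
  | add u v hu hv => rw [map_add, hu, hv, Finsupp.add_apply]
  | single w c =>
    rw [pr_single, NS.word_apply, Finsupp.single_apply]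
    by_cases h : w = α
    · simp [h]
    · simp [h]

theorem CC.eq_of_pr {u v : CC X K} (h : ∀ a : NS X K, pr a u = pr a v) : u = v := by
  ext w
  rw [← pr_word, ← pr_word, h]

theorem sfx_mul (a b : NS X K) (u : CC X K) : sfx (a * b) u = sfx a (sfx b u) := by
  apply CC.eq_of_pr
  intro c
  rw [pr_sfx, pr_sfx, pr_sfx, mul_assoc]

theorem pfx_mul (a b : NS X K) (u : CC X K) : pfx (a * b) u = pfx b (pfx a u) := by
  apply CC.eq_of_pr
  intro c
  rw [pr_pfx, pr_pfx, pr_pfx, mul_assoc]

theorem sfx_add (a b : NS X K) (u : CC X K) : sfx (a + b) u = sfx a u + sfx b u := by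
  apply CC.eq_of_pr
  intro c
  rw [map_add, pr_sfx, pr_sfx, pr_sfx, mul_add, pr_add]

theorem pfx_add (a b : NS X K) (u : CC X K) : pfx (a + b) u = pfx a u + pfx b u := by
  apply CC.eq_of_pr
  intro c
  rw [map_add, pr_pfx, pr_pfx, pr_pfx, add_mul, pr_add]

/-- words of length at most `n` -/
def Cle (X : Type u) (K : Type v) [CommRing K] (n : ℕ) : Submodule K (CC X K) :=
  Finsupp.supported K K {w | w.length ≤ n}

theorem mem_Cle {n : ℕ} {u : CC X K} : u ∈ Cle X K n ↔ ∀ w, n < w.length → u w = 0 := by
  rw [Cle, Finsupp.mem_supported']
  constructor
  · intro h w hw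
    exact h w (by simpa using hw)
  · intro h w hw
    exact h w (by simpa using hw)

theorem Cle_mono : Monotone (Cle X K) := by
  intro m n h u hu
  rw [mem_Cle] at hu ⊢
  intro w hw
  exact hu w (by omega)

end Pool.Agent.Helper34.FHS
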