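import Mathlib
import Pool.Agent.Helper34.FHS.Pair

/-!
# Topology on noncommutative power series (product topology), Magnus homomorphisms, the ideal `I`
-/

namespace Pool.Agent.Helper34.FHS

open Finsupp

universe u v

namespace NS

section
variable {X : Type u} {K : Type v} [TopologicalSpace K]

instance instTop : TopologicalSpace (NS X K) := TopologicalSpace.induced NS.coeff inferInstance

theorem continuous_iff {T : Type*} [TopologicalSpace T] {f : T → NS X K} :
    Continuous f ↔ ∀ w, Continuous fun t => f t w := by
  rw [continuous_induced_rng, continuous_pi_iff]
  rfl

theorem continuous_apply (w : List X) : Continuous fun a : NS X K => a w :=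
  continuous_iff.1 continuous_id w

instance instT2 [T2Space K] : T2Space (NS X K) :=
  T2Space.of_injective_continuous coeff_injective continuous_induced_dom

end

variable {X : Type u} {K : Type v} [CommRing K] [TopologicalSpace K] [IsTopologicalRing K]

theorem continuous_dl (z : X) : Continuous (dl z : NS X K → NS X K) :=
  continuous_iff.2 fun w => continuous_apply (z :: w)

theorem continuous_mul_apply (w : List X) :
    ∀ {T : Type (max u v)} [TopologicalSpace T] {f g : T → NS X K}, Continuous f → Continuous g →
      Continuous fun t => (f t * g t : NS X K) w := by
  induction w with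
  | nil =>
    intro T _ f g hf hg
    exact ((continuous_apply []).comp hf).mul ((continuous_apply []).comp hg)
  | cons z w ih =>
    intro T _ f g hf hg
    exact (((continuous_apply (z :: w)).comp hf).mul ((continuous_apply []).comp hg)).add
      (ih hf ((continuous_dl z).comp hg))

instance : ContinuousMul (NS X K) :=
  ⟨continuous_iff.2 fun w =>
    continuous_mul_apply (T := NS X K × NS X K) w continuous_fst continuous_snd⟩

instance : ContinuousAdd (NS X K) :=
  ⟨continuous_iff.2 fun w => ((continuous_apply w).comp continuous_fst).add
    ((continuous_apply w).comp continuous_snd)⟩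

instance : ContinuousNeg (NS X K) :=
  ⟨continuous_iff.2 fun w => (continuous_apply w).neg⟩

instance : IsTopologicalRing (NS X K) := {}

theorem continuous_pr (u : CC X K) : Continuous fun a : NS X K => pr a u := by
  induction u using Finsupp.induction_linear with
  | zero => simpa using continuous_const
  | add u v hu hv => simp only [map_add]; exact hu.add hv
  | single w c => simp only [pr_single]; exact continuous_const.mul (continuous_apply w)

end NS

/-- `M : F → K⟪X⟫` is the Magnus homomorphism of the topological group `F` with generators `ι` -/
structure IsMagnus {X F K : Type*} [CommRing K] [TopologicalSpace K] [Group F] [TopologicalSpace F]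
    (ι : X → F) (M : F →* NS X K) : Prop where
  dense : Dense (Subgroup.closure (Set.range ι) : Set F)
  cont : Continuous M
  nil : ∀ g, M g [] = 1
  gen : ∀ z, M (ι z) = 1 + NS.letter z

section

variable {X : Type u} {K : Type v} [CommRing K]

/-- polynomials killed by the (closed) two-sided ideal generated by `f` -/
def Bsub (f : NS X K) : Submodule K (CC X K) where
  carrier := {u | ∀ α β : List X, pr (NS.word α * f * NS.word β) u = 0}
  add_mem' := by
    intro u v hu hv α β
    rw [map_add, hu, hv, add_zero]
  zero_mem' := by intro α β; simp
  smul_mem' := by
    intro c u hu α β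
    rw [map_smul, hu, smul_zero]

theorem mem_Bsub {f : NS X K} {u : CC X K} :
    u ∈ Bsub f ↔ ∀ α β : List X, pr (NS.word α * f * NS.word β) u = 0 := Iff.rfl

/-- the closed two-sided ideal generated by `f` -/
def Icl (f : NS X K) : Submodule K (NS X K) where
  carrier := {a | ∀ u ∈ Bsub f, pr a u = 0}
  add_mem' := by
    intro a b ha hb u hu
    rw [pr_add, ha u hu, hb u hu, add_zero]
  zero_mem' := by intro u _; rw [pr_zero]
  smul_mem' := by
    intro c a ha u hu
    rw [pr_smul, ha u hu, mul_zero]

theorem mem_Icl {f a : NS X K} : a ∈ Icl f ↔ ∀ u ∈ Bsub f, pr a u = 0 := Iff.rfl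

end

end Pool.Agent.Helper34.FHS
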