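import Mathlib
import Pool.Agent.Helper34.FHS.Top

/-!
# The group of power series with constant term 1
-/

namespace Pool.Agent.Helper34.FHS

universe u v

namespace NS

variable {X : Type u} {K : Type v} [CommRing K]

theorem mul_apply_sum (b c : NS X K) (w : List X) :
    (b * c) w = ∑ i ∈ Finset.range (w.length + 1), b (w.drop i) * c (w.take i) := by
  induction w generalizing c with
  | nil => simp [mul_nil]
  | cons z w ih =>
    rw [mul_cons, ih, List.length_cons, Finset.sum_range_succ' _ (w.length + 1)]
    simp only [List.drop_zero, List.take_zero, List.drop_succ_cons, List.take_succ_cons, dl_apply]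
    ring

/-- coefficients of the inverse of a series with constant term 1 -/
noncomputable def invF (a : NS X K) : List X → K
  | [] => 1
  | z :: w => -∑ i : Fin (w.length + 1), invF a (w.drop i) * a (z :: w.take i)
termination_by w => w.length
decreasing_by simp

/-- the inverse of a series with constant term 1 -/
noncomputable def invS (a : NS X K) : NS X K := ⟨invF a⟩

theorem invS_nil (a : NS X K) : invS a [] = 1 := by
  show invF a [] = 1
  unfold invF
  rfl

theorem invS_cons (a : NS X K) (z : X) (w : List X) :
    invS a (z :: w) = -∑ i : Fin (w.length + 1), invS a (w.drop i) * a (z :: w.take i) := by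
  show invF a (z :: w) = _
  conv_lhs => unfold invF
  rfl

theorem invS_mul (a : NS X K) (ha : a [] = 1) : invS a * a = 1 := by
  apply ext'
  intro w
  cases w with
  | nil => rw [mul_nil, invS_nil, ha, one_nil, one_mul]
  | cons z w =>
    rw [mul_cons, ha, mul_one, invS_cons, mul_apply_sum, Finset.sum_range, one_cons]
    exact neg_add_cancel _

theorem mul_invS (a : NS X K) (ha : a [] = 1) : a * invS a = 1 := by
  have h1 := invS_mul a ha
  have h2 := invS_mul (invS a) (invS_nil a)
  have h3 : invS (invS a) = a := by
    calc invS (invS a) = invS (invS a) * (invS a * a) := by rw [h1, mul_one]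
      _ = a := by rw [← mul_assoc, h2, one_mul]
  rw [h3] at h2
  exact h2

theorem continuous_invS [TopologicalSpace K] [IsTopologicalRing K] :
    Continuous (invS : NS X K → NS X K) := by
  rw [continuous_iff]
  intro w
  induction h : w.length using Nat.strong_induction_on generalizing w with
  | _ n ih =>
    cases w with
    | nil => simp only [invS_nil]; exact continuous_const
    | cons z w =>
      simp only [invS_cons]
      refine (continuous_finsetSum _ fun i _ => ?_).neg
      refine Continuous.mul ?_ (continuous_apply _)
      exact ih (w.drop i).length (by rw [← h]; simp) _ rfl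

end NS

/-- The group of noncommutative power series with constant term `1`. -/
def UG (X : Type u) (K : Type v) [CommRing K] := {a : NS X K // a [] = 1}

namespace UG

variable {X : Type u} {K : Type v} [CommRing K]

/-- the underlying power series -/
def val (a : UG X K) : NS X K := a.1

theorem val_nil (a : UG X K) : a.val [] = 1 := a.2

theorem val_injective : Function.Injective (val : UG X K → NS X K) := Subtype.val_injective

instance : One (UG X K) := ⟨⟨1, NS.one_nil⟩⟩
instance : Mul (UG X K) := ⟨fun a b => ⟨a.1 * b.1, by rw [NS.mul_nil, a.2, b.2, one_mul]⟩⟩
noncomputable instance : Inv (UG X K) := ⟨fun a => ⟨NS.invS a.1, NS.invS_nil _⟩⟩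

@[simp] theorem val_one : (1 : UG X K).val = 1 := rfl
@[simp] theorem val_mul (a b : UG X K) : (a * b).val = a.val * b.val := rfl

noncomputable instance : Group (UG X K) :=
  Group.ofLeftAxioms (fun a b c => val_injective (mul_assoc a.val b.val c.val))
    (fun a => val_injective (one_mul a.val))
    (fun a => val_injective (NS.invS_mul a.val a.2))

/-- the underlying power series, as a homomorphism -/
def valHom : UG X K →* NS X K := ⟨⟨val, rfl⟩, fun _ _ => rfl⟩

@[simp] theorem valHom_apply (a : UG X K) : valHom a = a.val := rfl

instance [TopologicalSpace K] : TopologicalSpace (UG X K) :=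
  TopologicalSpace.induced val inferInstance

section top

variable [TopologicalSpace K] [IsTopologicalRing K]

omit [IsTopologicalRing K] in
theorem continuous_val : Continuous (val : UG X K → NS X K) := continuous_induced_dom

instance : IsTopologicalGroup (UG X K) where
  continuous_mul := continuous_induced_rng.2
    ((continuous_val.comp continuous_fst).mul (continuous_val.comp continuous_snd))
  continuous_inv := continuous_induced_rng.2 (NS.continuous_invS.comp continuous_val)

instance [T2Space K] : T2Space (UG X K) :=
  T2Space.of_injective_continuous val_injective continuous_val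

omit [IsTopologicalRing K] in
theorem isClosedEmbedding_coeff [T2Space K] :
    Topology.IsClosedEmbedding (fun a : UG X K => a.val.coeff) := by
  refine ⟨⟨⟨?_⟩, fun a b h => val_injective (NS.coeff_injective h)⟩, ?_⟩
  · rw [← Function.comp_def NS.coeff val, ← induced_compose]
    rfl
  · have : Set.range (fun a : UG X K => a.val.coeff) = {f : List X → K | f [] = 1} := by
      ext f
      constructor
      · rintro ⟨a, rfl⟩
        exact a.2
      · intro hf
        exact ⟨⟨⟨f⟩, hf⟩, rfl⟩
    rw [this]
    exact isClosed_eq (continuous_apply []) continuous_const

instance [T2Space K] [CompactSpace K] : CompactSpace (UG X K) :=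
  isClosedEmbedding_coeff.compactSpace

instance [TotallyDisconnectedSpace K] : TotallyDisconnectedSpace (UG X K) := by
  refine ⟨?_⟩
  intro s _ hs
  have h1 : IsPreconnected ((fun a : UG X K => a.val.coeff) '' s) :=
    hs.image _ (Continuous.continuousOn (continuous_induced_dom.comp continuous_induced_dom))
  have h2 := h1.subsingleton
  intro a ha b hb
  exact val_injective (NS.coeff_injective (h2 ⟨a, ha, rfl⟩ ⟨b, hb, rfl⟩))

end top

end UG

example (p : ℕ) [Fact p.Prime] : TotallyDisconnectedSpace ℤ_[p] := inferInstance
example (p : ℕ) [Fact p.Prime] : CompactSpace ℤ_[p] := inferInstance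

end Pool.Agent.Helper34.FHS
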